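import Mathlib
import Pool.Agent.R493.SC.Geo
/-!
# Positions of primes in first kind Cunningham chains at several scales

The numbers `b ^ j n - 1`, `j = 0, 1, ...`, form for `b = 2` a sequence in which every term is twice the
preceding one plus `1`: Cunningham chains of the first kind are runs of primes in such sequences. Say that a
finite set `F` of positions is carried by `[N, D N]` if for at least `N / (log N) ^ B` of the `n ∈ [N, D N]` all
the numbers `b ^ j n - 1`, `j ∈ F`, are prime. The question is whether every set `{0, ..., k}` is carried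
for some `n`, for `b = 2`. Here: for every large set `V` of positions and all large `N_1, ..., N_R` (which may
be of very different sizes) the proportion `(5 / 18) ^ (R k) - ε` of the `(k + 1)`-element subsets of `V` are
carried by all the intervals `[N_r, D N_r]` simultaneously; moreover the bases `b_r ≥ 2` may be different (for
the question all are `2`).

The theorem on classes of linear forms with the constant `18 / 5`, uniform in constant terms as large as the
variable (`Pool.Agent.Y827.RO.lamRD`), and the combinatorial theorem for one family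
(`Pool.Agent.W25.QL.main_gen`) are from the starting files.
-/

namespace Pool.Agent.Results.MP_c77da8_nt.CommonPositions

open Finset Filter

/-- the number of the `n ∈ [N, D N]` such that all the numbers `b ^ j n - 1`, `j ∈ F`, are prime -/
def count (b D : ℕ) (F : Finset ℕ) (N : ℕ) : ℕ :=
  ((Icc N (D * N)).filter (fun n => ∀ j ∈ F, (b ^ j * n - 1).Prime)).card

theorem cnt_le {b D N : ℕ} (F : Finset ℕ) (hb : 2 ≤ b) (hN : 1 ≤ N) :
    Pool.Agent.R493.SC.cntG b (-1) D F N ≤ count b D F N := by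
  unfold Pool.Agent.R493.SC.cntG count
  apply card_le_card
  intro n hn
  obtain ⟨h1, h2⟩ := mem_filter.1 hn
  refine mem_filter.2 ⟨h1, fun j hj => ?_⟩
  have h3 := h2 j hj
  have h4 : 1 ≤ b ^ j * n := Nat.mul_pos (by positivity) (by have := (mem_Icc.1 h1).1; omega)
  have e : ((b : ℤ) ^ j * (n : ℤ) + (-1)).toNat = b ^ j * n - 1 := by
    have h5 : (b : ℤ) ^ j * (n : ℤ) = ((b ^ j * n : ℕ) : ℤ) := by push_cast; ring
    rw [h5]
    omega
  rwa [e] at h3

open Classical in
theorem result (R k : ℕ) (ε : ℝ) (hε : 0 < ε) : ∃ n₀ B : ℕ, ∀ V : Finset ℕ, n₀ ≤ V.card →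
    ∀ b : Fin R → ℕ, (∀ ρ, 2 ≤ b ρ) → ∃ D N₀ : ℕ, ∀ N : Fin R → ℕ, (∀ ρ, N₀ ≤ N ρ) →
      ((5 / 18) ^ (R * k) - ε) * (V.card.choose (k + 1) : ℝ) ≤
        (((V.powersetCard (k + 1)).filter (fun F => ∀ ρ,
          (N ρ : ℝ) / (Real.log (N ρ)) ^ B ≤ (count (b ρ) D F (N ρ) : ℝ))).card : ℝ) := by
  obtain ⟨n₀, B, h⟩ := Pool.Agent.R493.SC.geoTuples R k ε hε
  refine ⟨n₀, B, fun V hV b hb => ?_⟩
  obtain ⟨D, N₀, h1⟩ := h V hV b (fun _ => -1) (fun ρ => ⟨hb ρ, isCoprime_one_right.neg_right⟩)
  refine ⟨D, N₀ + 1, fun N hN => ?_⟩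
  have h2 := Pool.Agent.R493.SC.subsets_of_tuples (k := k) (V := V) (δ := (5 / 18) ^ (R * k) - ε)
    (Q := fun F => ∀ ρ, (N ρ : ℝ) / (Real.log (N ρ)) ^ B ≤
      (Pool.Agent.R493.SC.cntG (b ρ) (-1) D F (N ρ) : ℝ)) (by
    have h3 := h1 N (fun ρ => (Nat.le_succ _).trans (hN ρ))
    convert h3)
  have h2' : ((5 / 18) ^ (R * k) - ε) * (V.card.choose (k + 1) : ℝ) ≤
      (((V.powersetCard (k + 1)).filter (fun F => ∀ ρ, (N ρ : ℝ) / (Real.log (N ρ)) ^ B ≤
        (Pool.Agent.R493.SC.cntG (b ρ) (-1) D F (N ρ) : ℝ))).card : ℝ) := by convert h2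
  refine h2'.trans ?_
  rw [Nat.cast_le]
  apply card_le_card
  intro F hF
  rw [mem_filter] at hF ⊢
  obtain ⟨h3, h4⟩ := hF
  refine ⟨h3, fun ρ => (h4 ρ).trans ?_⟩
  rw [Nat.cast_le]
  exact cnt_le F (hb ρ) ((Nat.le_add_left _ _).trans (hN ρ))

end Pool.Agent.Results.MP_c77da8_nt.CommonPositions
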