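import Mathlib
import Pool.Agent.R493.ST.Mul
/-!
# Exact sets of multipliers `u` with `u n - 1` prime, common to several scales

A Cunningham chain of the first kind of length `k` is a run of primes `2 ^ j n - 1`, `0 ≤ j < k`, that is, a
number `n` such that `u n - 1` is prime for `u = 1, 2, 4, ..., 2 ^ (k - 1)`. For all `k`, `L`, `R`, `M`: every
large set `U` of multipliers (for instance a large set of powers of two) contains, for all large
`x_1, ..., x_R` (which may be of very different sizes), a set `W` of `L` multipliers such that for EVERY nonempty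
subset `F` of `W` with at most `k + 1` elements and every `r` there are at least `x_r / (log x_r) ^ B` numbers
`n ≤ x_r` such that, among ALL the numbers `u n - 1`, `1 ≤ u ≤ max F + M`, exactly those with `u ∈ F` are prime.

The theorem on classes of linear forms with the constant `18 / 5` (`Pool.Agent.Y827.RO.lamRD`) and the
passage to exact sets of prime forms (`Pool.Agent.Y876.FF.trace_int`) are from the starting files.
-/

namespace Pool.Agent.Results.MP_c77da8_nt.ExactMultiples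

open Finset Filter

/-- the number of the `n ≤ x` such that, for all `1 ≤ u ≤ max F + M`, the number `u n - 1` is prime if and
only if `u ∈ F` -/
noncomputable def count (M : ℕ) (F : Finset ℕ) (x : ℝ) : ℕ :=
  {n : ℕ | (n : ℝ) ≤ x ∧ ∀ u : ℕ, 1 ≤ u → u ≤ F.sup id + M → ((u * n - 1).Prime ↔ u ∈ F)}.ncard

theorem count_eq (M : ℕ) (F : Finset ℕ) (x : ℝ) : Pool.Agent.R493.ST.mulN (-1) M F x = count M F x := by
  unfold Pool.Agent.R493.ST.mulN count
  congr 1
  ext n
  simp only [Set.mem_ofPred_eq]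
  refine and_congr_right fun _ => forall₃_congr fun u hu _ => ?_
  have e : ((u : ℤ) * (n : ℤ) + (-1)).toNat = u * n - 1 := by
    have h1 : (u : ℤ) * (n : ℤ) = ((u * n : ℕ) : ℤ) := by push_cast; ring
    rw [h1]
    try omega
  rw [e]

theorem result (k : ℕ) : ∃ B : ℕ, ∀ L R M : ℕ, ∃ K : ℕ, ∀ U : Finset ℕ, K ≤ U.card →
    (∀ u ∈ U, 1 ≤ u) → ∃ x₀ : ℝ, ∀ x : Fin R → ℝ, (∀ ρ, x₀ ≤ x ρ) →
      ∃ W ⊆ U, W.card = L ∧ ∀ ρ, ∀ F ⊆ W, 1 ≤ F.card → F.card ≤ k + 1 →
        x ρ / Real.log (x ρ) ^ B ≤ (count M F (x ρ) : ℝ) := by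
  obtain ⟨B, hB⟩ := Pool.Agent.R493.ST.multiples k
  refine ⟨B, fun L R M => ?_⟩
  obtain ⟨K, hK⟩ := hB L R M
  refine ⟨K, fun U hU hU1 => ?_⟩
  obtain ⟨x₀, hx₀⟩ := hK U hU hU1 (fun _ => -1) (fun _ => Or.inr rfl)
  refine ⟨x₀, fun x hx => ?_⟩
  obtain ⟨W, hW, hL, h⟩ := hx₀ x hx
  refine ⟨W, hW, hL, fun ρ F hF hF1 hFk => ?_⟩
  rw [← count_eq]
  exact h ρ F hF hF1 hFk

end Pool.Agent.Results.MP_c77da8_nt.ExactMultiples
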