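import Pool.Agent.R498.MP.Cun3

set_option autoImplicit false

/-!
# Strings of consecutive primes in a residue class which start almost prime Cunningham chains
-/

namespace Pool.Agent.Results.MP_c77da8_nt.PrimeStrings

open Filter

/-- The `i`-th number of the first-kind Cunningham sequence starting at `p`. -/
def member (i p : ℕ) : ℕ := 2 ^ i * (p + 1) - 1

/-- `n` has at most `r` prime factors, counted with multiplicity, all of them at least `w`. -/
def AlmostPrime (r : ℕ) (w : ℝ) (n : ℕ) : Prop :=
  n.primeFactorsList.length ≤ r ∧ ∀ q : ℕ, q.Prime → q ∣ n → w ≤ q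

/-- The primes in the interval `[x, x + C]` are exactly the numbers `x + s`, `s ∈ H`. -/
def PrimePattern (C : ℕ) (H : Finset ℕ) (x : ℕ) : Prop := ∀ y ≤ C, (x + y).Prime ↔ y ∈ H

/-- **Strings of consecutive primes in a residue class starting almost prime Cunningham chains.** Let
`c_i(p) = 2 ^ i (p + 1) - 1`. Let `q` be squarefree and let `c` be such that `c = c_0(c), c_1(c), ..., c_k(c)`
are coprime to `q` (for instance `q = 1`). For every `m` there are `K`, `r` and `δ > 0` such that, for
every finite set `S` of at least `K` nonnegative integers and every `l`, there is an exponent `B` such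
that for all large `N` there are a subset `H` of `S` with at least `m` elements and an arithmetic
progression `n, n + d, ..., n + (l - 1) d` in `(N, 2 N]` with difference `1 ≤ d ≤ (log N) ^ B` such that for
all its terms `x` the primes in `[x, x + max S]` are exactly the numbers `x + s`, `s ∈ H`, and all these
primes `p` satisfy `p ≡ c` modulo `q`, and all the members number `1, ..., k` of the first-kind Cunningham
sequence of `p` have at most `r` prime factors, all of them at least `N ^ δ`. -/
theorem result (k q c : ℕ) (hq : Squarefree q) (hc : ∀ i ≤ k, Nat.Coprime (member i c) q)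
    (m : ℕ) : ∃ (K r : ℕ) (δ : ℝ), 0 < δ ∧
    ∀ S : Finset ℕ, K ≤ S.card → ∀ l : ℕ, ∃ B : ℕ, ∀ᶠ N : ℕ in atTop, ∃ H ⊆ S, m ≤ H.card ∧
      ∃ n d : ℕ, 1 ≤ d ∧ (d : ℝ) ≤ Real.log N ^ B ∧ ∀ j < l,
        N < n + j * d ∧ n + j * d + S.sup id ≤ 2 * N ∧ PrimePattern (S.sup id) H (n + j * d) ∧
        ∀ s ∈ H, n + j * d + s ≡ c [MOD q] ∧ ∀ i, 1 ≤ i → i ≤ k →
          AlmostPrime r ((N : ℝ) ^ δ) (member i (n + j * d + s)) :=
  Pool.Agent.R498.MP.cun1_strings k q c hq hc m

end Pool.Agent.Results.MP_c77da8_nt.PrimeStrings
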